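import Pool.Agent.R970.FB.Main

set_option autoImplicit false

open MeasureTheory ProbabilityTheory
open Pool.Agent.R970.FB

namespace Pool.Agent.Results.MP_274522_pr.Disproof

/-- There is a forward Brownian motion with continuous paths which has an independence time `T`
and a time `S` from which the backward process is a Brownian motion, but which is not a two-sided
Brownian motion, not even on any extension of the probability space. -/
theorem result :
    ∃ (Ω : Type) (_ : MeasurableSpace Ω) (P : Measure Ω) (X : ℝ → Ω → ℝ) (S T : Ω → ℝ),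
      IsProbabilityMeasure P ∧ (∀ t, Measurable (X t)) ∧ (∀ ω, Continuous (X · ω)) ∧
      IsFBM X P ∧ Measurable S ∧ Measurable T ∧ IndepAt X T P ∧ IsBrownianReal (bwd X S) P ∧
      ¬ Is2BM X P ∧
      ∀ (Ω' : Type) (_ : MeasurableSpace Ω') (P' : Measure Ω') (g : Ω' → Ω),
        MeasurePreserving g P' P → ¬ Is2BM (fun t ω => X t (g ω)) P' := by
  obtain ⟨Ω, mΩ, P, X, hP, hm, hc, hf, ⟨S, hS, -, hSb⟩, ⟨T, hT, hTi⟩, hn, hn'⟩ := main
  refine ⟨Ω, mΩ, P, X, fun ω => -S 0 ω, T, hP, hm, hc, hf, (hS 0).neg, hT, hTi, ?_, hn, hn'⟩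
  have e : bwd X (fun ω => -S 0 ω) = fwd (fun t => X (-t)) (S 0) := by
    funext t ω
    simp only [fwd, bwd]
    rw [show -S 0 ω - (t : ℝ) = -(S 0 ω + t) by ring]
  rw [e]
  exact hSb 0

end Pool.Agent.Results.MP_274522_pr.Disproof
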